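import Pool.Agent.Q103.PA.Grp

namespace Pool.Agent.Results.MP_0fca91_al.PowerNotUniform

open Pool.Agent.Q103.PA Pool.Agent.Helper180.FreeMetric

/-- The power alternative: for all `g, h` there is `n ≥ 1` such that `g^n` and `h^n` commute or
generate a free group of rank two. -/
def PowerAlternative (G : Type) [Group G] : Prop :=
  ∀ g h : G, ∃ n : ℕ, 1 ≤ n ∧ (Commute (g ^ n) (h ^ n) ∨
    Nonempty (Subgroup.closure {g ^ n, h ^ n} ≃* FreeGroup (Fin 2)))

/-- The uniform power alternative: one `N ≥ 1` works for all pairs. -/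
def UniformPowerAlternative (G : Type) [Group G] : Prop :=
  ∃ N : ℕ, 1 ≤ N ∧ ∀ g h : G, Commute (g ^ N) (h ^ N) ∨
    Nonempty (Subgroup.closure {g ^ N, h ^ N} ≃* FreeGroup (Fin 2))

theorem closure_equiv {G : Type} [Group G] {x y : G}
    (h : Function.Injective (FreeGroup.lift ![x, y])) :
    Nonempty (Subgroup.closure {x, y} ≃* FreeGroup (Fin 2)) := by
  have e : (FreeGroup.lift ![x, y]).range = Subgroup.closure {x, y} := by
    rw [FreeGroup.range_lift_eq_closure]
    congr 1
    simp [Matrix.range_cons, Matrix.range_empty]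
    exact Set.pair_comm _ _
  exact ⟨((MonoidHom.ofInjective h).trans (MulEquiv.subgroupCongr e)).symm⟩

theorem pa : PowerAlternative G := by
  intro g h
  obtain ⟨n, hn, h1 | h1⟩ := gam_pa (phiG g) (phiG h)
  · refine ⟨n, hn, Or.inl ?_⟩
    rw [← map_pow, ← map_pow] at h1
    apply phiG_inj
    rw [map_mul, map_mul]
    exact h1
  · refine ⟨n, hn, Or.inr (closure_equiv (inj_of_hom phiG ?_))⟩
    rw [map_pow, map_pow]
    exact h1

theorem gam_tf (g : Gam) (n : ℕ) (hn : 1 ≤ n) (h : g ^ n = 1) : g = 1 := by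
  have h1 : g.right = 1 := by
    have h2 : g.right ^ n = 1 := by
      have := congrArg (SemidirectProduct.rightHom (φ := phi rho)) h
      rw [map_pow, map_one] at this
      exact this
    have a1 : g.right.1 ^ n = 1 := by rw [← Prod.pow_fst, h2]; rfl
    have a2 : g.right.2 ^ n = 1 := by rw [← Prod.pow_snd, h2]; rfl
    exact Prod.ext ((pow_eq_one_iff_left (by omega)).mp a1)
      ((pow_eq_one_iff_left (by omega)).mp a2)
  have h3 : g = SemidirectProduct.inl g.left := by
    apply SemidirectProduct.ext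
    · simp
    · simp [h1]
  rw [h3, ← map_pow] at h
  have h4 : g.left ^ n = 1 := by
    apply SemidirectProduct.inl_injective (φ := phi rho)
    rw [h, map_one]
  have h5 : g.left = 1 := (pow_eq_one_iff_left (by omega)).mp h4
  rw [h3, h5, map_one]

theorem tf (g : G) (hg : g ≠ 1) (n : ℕ) (hn : 1 ≤ n) : g ^ n ≠ 1 := by
  intro h
  apply hg
  apply phiG_inj
  rw [map_one]
  apply gam_tf _ n hn
  rw [← map_pow, h, map_one]

/-! ### The group `Q` -/

theorem rel1 : pr gs * pr gx * (pr gs)⁻¹ = pr gx ^ 2 := by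
  have h : pr (gs * gx * gs⁻¹ * gx⁻¹ * gx⁻¹) = 1 :=
    PresentedGroup.mk_eq_one_iff.mpr (Subgroup.subset_normalClosure (Or.inl rfl))
  simp only [map_mul, map_inv] at h
  rw [pow_two]
  calc pr gs * pr gx * (pr gs)⁻¹
      = (pr gs * pr gx * (pr gs)⁻¹ * (pr gx)⁻¹ * (pr gx)⁻¹) * (pr gx * pr gx) := by group
    _ = _ := by rw [h, one_mul]

theorem rel2 : Commute (pr gx) (pr gw) := by
  have h : pr (gx * gw * gx⁻¹ * gw⁻¹) = 1 :=
    PresentedGroup.mk_eq_one_iff.mpr (Subgroup.subset_normalClosure (Or.inr rfl))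
  simp only [map_mul, map_inv] at h
  exact cm_one_iff.mp h

theorem rel1_pow (k : ℕ) : pr gs ^ k * pr gx * (pr gs ^ k)⁻¹ = pr gx ^ (2 ^ k) := by
  induction k with
  | zero => simp
  | succ k ih =>
    have e : pr gs ^ (k + 1) * pr gx * (pr gs ^ (k + 1))⁻¹ =
        pr gs * (pr gs ^ k * pr gx * (pr gs ^ k)⁻¹) * (pr gs)⁻¹ := by
      rw [pow_succ']; group
    rw [e, ih, ← conj_pow, rel1, ← pow_mul, pow_succ']

/-- `w_k = s^k w s^{-k}` -/
def wk (k : ℕ) : F := gs ^ k * gw * (gs ^ k)⁻¹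

theorem wk_comm (k : ℕ) : Commute (pr (wk k)) (pr gx ^ (2 ^ k)) := by
  rw [← rel1_pow, wk, map_mul, map_mul, map_inv, map_pow]
  have h := rel2.eq
  change _ * _ = _ * _
  calc pr gs ^ k * pr gw * (pr gs ^ k)⁻¹ * (pr gs ^ k * pr gx * (pr gs ^ k)⁻¹)
      = pr gs ^ k * (pr gw * pr gx) * (pr gs ^ k)⁻¹ := by group
    _ = pr gs ^ k * (pr gx * pr gw) * (pr gs ^ k)⁻¹ := by rw [h]
    _ = _ := by group

def ak (k : ℕ) : F := wk k * gx * (wk k)⁻¹

theorem ak_pow (k : ℕ) : pr (ak k) ^ (2 ^ k) = pr gx ^ (2 ^ k) := by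
  rw [ak, map_mul, map_mul, map_inv, conj_pow, (wk_comm k).eq]; group

/-- the permutation `y ↦ y + 1` of `ℚ` -/
def px : Equiv.Perm ℚ := Equiv.addRight 1

/-- the permutation `y ↦ 2 y` of `ℚ` -/
def ps : Equiv.Perm ℚ := Equiv.mulLeft₀ 2 (by norm_num)

open Classical in
/-- fixes integers and adds `1` to nonintegers -/
noncomputable def pw : Equiv.Perm ℚ where
  toFun y := if (∃ n : ℤ, y = n) then y else y + 1
  invFun y := if (∃ n : ℤ, y = n) then y else y - 1
  left_inv y := by
    by_cases h : ∃ n : ℤ, y = n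
    · simp only [h, if_true]
    · have h' : ¬ ∃ n : ℤ, y + 1 = n := by
        rintro ⟨n, hn⟩
        exact h ⟨n - 1, by push_cast; linarith⟩
      simp only [h, h', if_false]; ring
  right_inv y := by
    by_cases h : ∃ n : ℤ, y = n
    · simp only [h, if_true]
    · have h' : ¬ ∃ n : ℤ, y - 1 = n := by
        rintro ⟨n, hn⟩
        exact h ⟨n + 1, by push_cast; linarith⟩
      simp only [h, h', if_false]; ring

open Classical in
theorem pw_int (n : ℤ) : pw (n : ℚ) = n := by
  change (if (∃ m : ℤ, (n : ℚ) = m) then (n : ℚ) else n + 1) = n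
  rw [if_pos ⟨n, rfl⟩]

open Classical in
theorem pw_nint {y : ℚ} (h : ¬ ∃ n : ℤ, y = n) : pw y = y + 1 := by
  change (if (∃ m : ℤ, y = m) then y else y + 1) = y + 1
  rw [if_neg h]

theorem pxw (y : ℚ) : px (pw y) = pw (px y) := by
  by_cases h : ∃ n : ℤ, y = n
  · obtain ⟨n, rfl⟩ := h
    rw [pw_int]
    change (n : ℚ) + 1 = pw ((n : ℚ) + 1)
    have : (n : ℚ) + 1 = ((n + 1 : ℤ) : ℚ) := by push_cast; ring
    rw [this, pw_int]
  · have h' : ¬ ∃ n : ℤ, y + 1 = n := by
      rintro ⟨n, hn⟩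
      exact h ⟨n - 1, by push_cast; linarith⟩
    rw [pw_nint h]
    change y + 1 + 1 = pw (y + 1)
    rw [pw_nint h']

noncomputable def mgen : Fin 3 → Equiv.Perm ℚ := ![px, ps, pw]

theorem mgen_rel : ∀ r ∈ relQ, FreeGroup.lift mgen r = 1 := by
  rintro r (rfl | rfl)
  · simp only [map_mul, map_inv, gs, gx, FreeGroup.lift_apply_of]
    change ps * px * ps⁻¹ * px⁻¹ * px⁻¹ = 1
    rw [mul_inv_eq_one, mul_inv_eq_iff_eq_mul, mul_inv_eq_iff_eq_mul]
    ext y
    change 2 * (y + 1) = (2 * y + 1) + 1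
    ring
  · simp only [map_mul, map_inv, gw, gx, FreeGroup.lift_apply_of]
    change px * pw * px⁻¹ * pw⁻¹ = 1
    rw [mul_inv_eq_one, mul_inv_eq_iff_eq_mul]
    ext y
    exact pxw y

noncomputable def M : Q →* Equiv.Perm ℚ := PresentedGroup.toGroup mgen_rel

theorem M_x : M (pr gx) = px := PresentedGroup.toGroup.of mgen_rel
theorem M_s : M (pr gs) = ps := PresentedGroup.toGroup.of mgen_rel
theorem M_w : M (pr gw) = pw := PresentedGroup.toGroup.of mgen_rel

theorem px_pow (n : ℕ) (y : ℚ) : (px ^ n) y = y + n := by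
  induction n with
  | zero => simp
  | succ n ih =>
    rw [pow_succ', Equiv.Perm.mul_apply, ih]
    change y + n + 1 = _
    push_cast; ring

theorem ps_pow (n : ℕ) (y : ℚ) : (ps ^ n) y = 2 ^ n * y := by
  induction n with
  | zero => simp
  | succ n ih =>
    rw [pow_succ', Equiv.Perm.mul_apply, ih]
    change 2 * (2 ^ n * y) = _
    ring

theorem ps_pow_inv (n : ℕ) (y : ℚ) : (ps ^ n)⁻¹ y = y / 2 ^ n := by
  rw [Equiv.Perm.inv_eq_iff_eq, ps_pow]
  field_simp

theorem ak_npow (N : ℕ) (hN : 1 ≤ N) : pr (ak N) ^ N ≠ pr gx ^ N := by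
  intro h
  rw [ak, map_mul, map_mul, map_inv, conj_pow] at h
  have h1 : pr (wk N) * pr gx ^ N = pr gx ^ N * pr (wk N) := by
    rwa [mul_inv_eq_iff_eq_mul] at h
  have h2 := congrArg M h1
  simp only [wk, map_mul, map_inv, map_pow, M_x, M_s, M_w] at h2
  have h3 := congrArg (fun π : Equiv.Perm ℚ => π 0) h2
  simp only [Equiv.Perm.mul_apply] at h3
  rw [px_pow, ps_pow_inv, ps_pow_inv, zero_div, zero_add] at h3
  have z : pw (0:ℚ) = 0 := by
    have := pw_int 0
    simpa using this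
  have hlt : N < 2 ^ N := Nat.lt_two_pow_self
  have nint : ¬ ∃ n : ℤ, (N : ℚ) / 2 ^ N = n := by
    rintro ⟨n, hn⟩
    have p : (0:ℚ) < 2 ^ N := by positivity
    have hN' : (0:ℚ) < N := by exact_mod_cast hN
    have hlt' : (N : ℚ) < 2 ^ N := by exact_mod_cast hlt
    have b1 : (0:ℚ) < n := by rw [← hn]; positivity
    have b2 : (n:ℚ) < 1 := by rw [← hn, div_lt_one p]; exact hlt'
    have b1' : (0:ℤ) < n := by exact_mod_cast b1
    have b2' : n < 1 := by exact_mod_cast b2
    omega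
  rw [z, pw_nint nint, ps_pow, ps_pow, px_pow] at h3
  have p : (0:ℚ) < 2 ^ N := by positivity
  have : (2:ℚ) ^ N * ((N : ℚ) / 2 ^ N + 1) = N + 2 ^ N := by field_simp
  rw [this] at h3
  simp at h3

theorem not_uniform : ¬ UniformPowerAlternative G := by
  rintro ⟨N, hN, H⟩
  have key : ∀ M' : ℕ, Commute ((A (ak N) * Bh gx) ^ M') (t ^ N) →
      pr (ak N) ^ M' = pr gx ^ M' := by
    intro M' hc
    have h1 := hc.map phiG
    rw [map_pow, map_pow, phiG_A, phiG_t, ← map_pow, ← map_pow] at h1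
    have h2 := SemidirectProduct.inl_aut (φ := phi rho) ((ak N, gx) ^ M')
      ((FreeGroup.of (1 : Q)) ^ N)
    rw [h1.eq, map_inv, mul_inv_cancel_right] at h2
    have h3 := SemidirectProduct.inl_injective (φ := phi rho) h2
    rw [map_pow, phi_apply, FreeGroup.map.of] at h3
    have h4 : FreeGroup.of (rho ((ak N, gx) ^ M') 1) = FreeGroup.of (1 : Q) :=
      pow_left_injective (M := FreeGroup Q) (n := N) (by omega) h3
    have h5 := FreeGroup.of_injective h4
    rw [rho_apply, mul_one, mul_inv_eq_one, Prod.pow_fst, Prod.pow_snd, map_pow, map_pow] at h5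
    exact h5
  have hnc : ¬ Commute ((A (ak N) * Bh gx) ^ N) (t ^ N) := fun h => ak_npow N hN (key N h)
  rcases H (A (ak N) * Bh gx) t with h | h
  · exact hnc h
  · obtain ⟨e⟩ := h
    set g1 := (A (ak N) * Bh gx) ^ N with hg1
    set t1 := t ^ N with ht1
    -- `g1 ^ (2^N)` commutes with `t1`
    have hcom : Commute (g1 ^ (2 ^ N)) t1 := by
      apply phiG_inj
      rw [hg1, ht1, ← pow_mul, map_mul, map_mul, map_pow, map_pow, phiG_A, phiG_t, ← map_pow]
      have hq : rho ((ak N, gx) ^ (N * 2 ^ N)) 1 = 1 := by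
        rw [rho_apply, mul_one, mul_inv_eq_one, Prod.pow_fst, Prod.pow_snd, map_pow, map_pow,
          mul_comm, pow_mul, pow_mul, ak_pow]
      have := act_comm hq
      exact (this.symm.pow_right N).eq
    have hg1ne : g1 ≠ 1 := by
      intro h
      apply hnc
      rw [h]; exact Commute.one_left _
    let a : Subgroup.closure {g1, t1} := ⟨g1, Subgroup.subset_closure (by simp)⟩
    let b : Subgroup.closure {g1, t1} := ⟨t1, Subgroup.subset_closure (by simp)⟩
    have ha1 : a ^ (2 ^ N) ≠ 1 := by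
      intro h
      have := congrArg Subtype.val h
      exact tf g1 hg1ne (2 ^ N) Nat.one_le_two_pow this
    have hab : Commute (a ^ (2 ^ N)) b := Subtype.ext hcom.eq
    have c1 : e a * e (a ^ (2 ^ N)) = e (a ^ (2 ^ N)) * e a := by
      rw [← map_mul, ← map_mul, (Commute.self_pow a (2 ^ N)).eq]
    have c2 : e b * e (a ^ (2 ^ N)) = e (a ^ (2 ^ N)) * e b := by
      rw [← map_mul, ← map_mul, hab.eq]
    have hne : e (a ^ (2 ^ N)) ≠ 1 := by
      intro h
      apply ha1
      apply e.injective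
      rw [h, map_one]
    have c3 := comm_trans hne c1 c2
    rw [← map_mul, ← map_mul] at c3
    have c4 := congrArg Subtype.val (e.injective c3)
    exact hnc c4

/-- There is a finitely presented torsion-free group which satisfies the power alternative but
does not satisfy the uniform power alternative. -/
theorem result : ∃ (α : Type) (rels : Set (FreeGroup α)), Finite α ∧ rels.Finite ∧
    (∀ g : PresentedGroup rels, g ≠ 1 → ∀ n : ℕ, 1 ≤ n → g ^ n ≠ 1) ∧
    PowerAlternative (PresentedGroup rels) ∧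
    ¬ UniformPowerAlternative (PresentedGroup rels) :=
  ⟨B, relG, inferInstance, relG_finite, tf, pa, not_uniform⟩

end Pool.Agent.Results.MP_0fca91_al.PowerNotUniform
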